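import Pool.Agent.R140.PK.Cover

/-!
# Quadruple covers by six even subgraphs of graphs without induced paths with eight vertices

Let `G` be a finite multigraph without bridges which has no induced path with eight vertices.  Then
there are six even subgraphs of `G` such that every edge is in exactly four of them (Jaeger's
conjecture for this class; for cubic graphs this is Fulkerson's conjecture).  The order, the degrees,
the connectivity and the width parameters of `G` are arbitrary.

Proof.  Let `H` be obtained from `G` by contraction of disjoint connected vertex sets, without such a
cover and with as few edges (apart from loops) as possible.  A shortest path in the union of the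
contracted sets of the vertices of an induced path of `H` is an induced path of `G`; so `H` has no
induced path with eight vertices.  By the theorem of `MP_e6539c_co` (`InducedPathEight`), applied to
`H`, either `H` has a nowhere-zero flow over the group of order four, and this gives a cover; or the
vertices of `H` have ten classes which form a Petersen graph, with exactly three edges leaving each
class.  The part of a class which contains the ends of these three edges is connected.  If it
contains an edge apart from loops, then it can be contracted, and so can the other side of the cut
with three edges; the two covers can be combined, since the three sets of indices at the edges of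
the cut are complements of three disjoint pairs, so they agree up to a permutation of the six
indices.  So one component of `H` is a Petersen graph (with loops); the contraction of this component
has a cover, and the Petersen graph has a cover.
-/

set_option autoImplicit false

open Finset

namespace Pool.Agent.Results.MP_40718a_co.InducedPathEight

open Pool.Agent.R140.PK

/-- Let `G` be a finite graph with loops and parallel edges allowed, given by the two ends `s e` and
`t e` of each edge `e`. Assume that no set of vertices is left by exactly one edge (no bridges) and
that `G` has no induced path with eight vertices: there are no eight different vertices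
`p 0, ..., p 7` such that `p i` and `p j` are joined by an edge if and only if `i` and `j` differ by
one. Then there are six even subgraphs such that each edge lies in exactly four of them. -/
theorem result (V E : Type) [Fintype V] [DecidableEq V] [Fintype E] [DecidableEq E] (s t : E → V)
    (hbridge : ∀ Z : Finset V, (univ.filter fun e => ¬ (s e ∈ Z ↔ t e ∈ Z)).card ≠ 1)
    (hp : ¬ ∃ p : Fin 8 → V, Function.Injective p ∧ ∀ i j : Fin 8, i < j →
      ((∃ e, (s e = p i ∧ t e = p j) ∨ (s e = p j ∧ t e = p i)) ↔ i.val + 1 = j.val)) :
    ∃ C : Fin 6 → Finset E,
      (∀ i v, Even (((C i).filter (fun e => s e = v)).card +
        ((C i).filter (fun e => t e = v)).card)) ∧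
      ∀ e, (univ.filter (fun i => e ∈ C i)).card = 4 := by
  have hn : TH362.TF.N1 s t univ := by
    intro x
    have h1 := hbridge (univ.filter (fun v => x v = true))
    have h2 : TH362.TF.cut s t univ x = univ.filter (fun e =>
        ¬ (s e ∈ univ.filter (fun v => x v = true) ↔ t e ∈ univ.filter (fun v => x v = true))) := by
      ext e
      unfold TH362.TF.cut
      simp only [mem_filter, mem_univ, true_and]
      cases x (s e) <;> cases x (t e) <;> simp
    rw [h2]
    exact h1
  obtain ⟨φ, h1, h2⟩ := cov_main s t hn hp
  refine ⟨fun i => univ.filter (fun e => φ e i = 1), fun i v => ?_, fun e => ?_⟩
  · have h3 := congrFun (h2 v) i
    unfold TH362.TF.Four.B at h3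
    rw [Finset.sum_apply] at h3
    have h4 : ∑ e : E, (((if s e = v then φ e else 0) + (if t e = v then φ e else 0) : M6) i) =
        (((((univ.filter (fun e => φ e i = 1)).filter (fun e => s e = v)).card +
          ((univ.filter (fun e => φ e i = 1)).filter (fun e => t e = v)).card : ℕ)) : ZMod 2) := by
      rw [Finset.filter_filter, Finset.filter_filter, Finset.card_filter, Finset.card_filter,
        ← Finset.sum_add_distrib]
      push_cast
      refine Finset.sum_congr rfl fun e _ => ?_
      rcases two01 (φ e i) with h5 | h5 <;> by_cases h6 : s e = v <;> by_cases h7 : t e = v <;>
        simp [h5, h6, h7]
    rw [← ZMod.natCast_eq_zero_iff_even]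
    exact h4.symm.trans h3
  · have h3 := h1 e
    unfold wt at h3
    rw [← h3]
    congr 1
    ext i
    simp

end Pool.Agent.Results.MP_40718a_co.InducedPathEight
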