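import Pool.Agent.R769.MN.Alg

set_option autoImplicit false

/-! # Six even subgraphs with every edge in exactly four of them: matching number at most eight

A finite graph, loops and parallel edges allowed, has vertex set `V` and edge set `E`; the ends of
the edge `e` are `src e` and `dst e`.  If the graph has no cut edge and no matching with nine
edges then it has six even subgraphs such that every edge is in exactly four of them.

Proof.  Identify vertices as long as no flow over the group of order four and no Petersen quotient
arises.  The result `H` has no circuits with at most four edges, no vertices with one or two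
neighbours, and at least 18 vertices of odd degree (`R890/FF`, which uses the starting theorem on
at most 16 odd vertices).  By the Tutte-Berge formula, if `H` has no matching with nine edges then
there are a set `A` of `a` vertices and at least `a + 2` pairwise disjoint odd sets `O` with
`|O| = 2 c(O) + 1`, with neighbours in `O ∪ A` only, such that `a + ∑ c(O) ≤ 8`.  Since there are no
circuits with four edges, pairs of neighbours in `A` belong to at most one vertex; this gives
`6 (a + 2) ≤ a (a - 1) + 3 (8 - a)`, which is false for `2 ≤ a ≤ 8`; for `a ≤ 1` the sets `O` have at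
least 7 (for `a = 0`, at least 10) elements.  So there is no such `H`, and the graph has a flow over
the group of order four, or a component with a Petersen quotient; in the second case one glues at
the ten 3-cuts of the quotient (`R890/FF`). -/

namespace Pool.Agent.Results.MP_40718a_co.MatchingNumberEight

open Finset

/-- the simple graph in which two distinct vertices are adjacent if an edge in `F` joins them -/
def under {V E : Type} (src dst : E → V) (F : Set E) : SimpleGraph V where
  Adj x y := x ≠ y ∧ ∃ e ∈ F, (src e = x ∧ dst e = y) ∨ (src e = y ∧ dst e = x)
  symm := ⟨fun _ _ h => ⟨h.1.symm, h.2.imp fun _ he => ⟨he.1, he.2.symm⟩⟩⟩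
  loopless := ⟨fun _ h => h.1 rfl⟩

/-- the edge `e` is a cut edge: its ends are not connected by the other edges -/
def IsCutEdge {V E : Type} (src dst : E → V) (e : E) : Prop :=
  ¬ (under src dst {e' | e' ≠ e}).Reachable (src e) (dst e)

/-- the degree of `v` in the set of edges `F`, where a loop counts twice -/
def deg {V E : Type} [DecidableEq V] (src dst : E → V) (F : Finset E) (v : V) : ℕ :=
  ∑ e ∈ F, ((if src e = v then 1 else 0) + (if dst e = v then 1 else 0))

/-- `M` is a matching: its edges are not loops and no two of them have a common end -/
def IsMatching {V E : Type} (src dst : E → V) (M : Finset E) : Prop :=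
  (∀ e ∈ M, src e ≠ dst e) ∧ ∀ e ∈ M, ∀ e' ∈ M, e ≠ e' →
    src e ≠ src e' ∧ src e ≠ dst e' ∧ dst e ≠ src e' ∧ dst e ≠ dst e'

/-- **Theorem.** A graph without a cut edge in which every matching has at most eight edges has six
even subgraphs such that every edge is in exactly four of them. -/
theorem result (V E : Type) [Fintype V] [DecidableEq V] [Fintype E] [DecidableEq E]
    (src dst : E → V) (hI : ∀ e, ¬ IsCutEdge src dst e)
    (hM : ∀ M : Finset E, IsMatching src dst M → M.card ≤ 8) :
    ∃ C : Fin 6 → Finset E, (∀ i v, Even (deg src dst (C i) v)) ∧
      ∀ e, (univ.filter fun i => e ∈ C i).card = 4 := by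
  classical
  -- no cut with one edge
  have hcut : Pool.Agent.TH676.A.Br src dst ∅ ∅ := by
    intro Y _ hY
    rw [sdiff_empty] at hY
    obtain ⟨e, he⟩ := card_eq_one.mp hY
    apply hI e
    intro hr
    have hstay : ∀ x y, (under src dst {e' | e' ≠ e}).Reachable x y → (x ∈ Y ↔ y ∈ Y) := by
      rintro x y ⟨p⟩
      induction p with
      | nil => exact Iff.rfl
      | cons hadj _ ih =>
        refine Iff.trans ?_ ih
        obtain ⟨_, e', he', h1⟩ := hadj
        have hn : e' ∉ Pool.Agent.TH676.A.crs src dst Y := by
          rw [he, mem_singleton]; exact he'
        rw [Pool.Agent.TH676.A.mem_crs, not_not] at hn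
        rcases h1 with ⟨h2, h3⟩ | ⟨h2, h3⟩
        · rw [h2, h3] at hn; exact hn
        · rw [h2, h3] at hn; exact hn.symm
    have hm : e ∈ Pool.Agent.TH676.A.crs src dst Y := by rw [he]; exact mem_singleton_self _
    rw [Pool.Agent.TH676.A.mem_crs] at hm
    exact hm (hstay _ _ hr)
  obtain ⟨C, h1, h2⟩ := Pool.Agent.TH497.BF.six (Pool.Agent.R769.MN.bf_match src dst hcut hM)
  exact ⟨C, h1, h2⟩

end Pool.Agent.Results.MP_40718a_co.MatchingNumberEight
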