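import Pool.Agent.H23.PS.FuFin

/-!
# Sums with the Petersen graph preserve quadruple covers by six even subgraphs (MP_40718a_co)

If a finite multigraph `G` has six even subgraphs such that every edge lies in exactly four of them,
then so has every graph obtained from `G` by a sequence of 2-, 3-, 4- and 5-sums with the Petersen
graph `P`.  The sums along cuts with at most four edges (`PetersenSum`, from the starting files) are:

* replace an edge by `P` minus an edge;
* replace a vertex of degree three by `P` minus a vertex;
* replace two edges by `P` minus two adjacent vertices (the dot product of `G` and `P`);
* replace an edge both of whose ends have degree three by `P` minus two disjoint edges, at distance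
  one or two (the dot product of `P` and `G`).

The sums along cuts with five edges (`PetersenSum5`) are:

* replace a vertex of degree three and an edge by `P` minus the three vertices of a path, or by `P`
  minus a vertex and an edge at distance two from it (two ways of joining);
* replace a path with three vertices of degree three by `P` minus a vertex and an edge at distance
  two from it (two ways of joining).

Since a graph which is the union of two even subgraphs (equivalently, has a nowhere-zero 4-flow) has
such six subgraphs, the conjecture holds for all graphs obtained from these graphs by such sums, for
instance for all iterated dot products of Petersen graphs and 3-edge-colourable cubic graphs of this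
kind.

Proof.  Assign to each edge the set of the indices of the even subgraphs containing it: this is a
flow over `(ZMod 2)^6` with values in the fifteen vectors of weight four.  Every choice of values on
the edges of the cut which is possible on the side that is replaced extends to the Petersen
fragment; the kernel checks tables of solutions.
-/

set_option autoImplicit false

namespace Pool.Agent.Results.MP_40718a_co.PetersenSums
open Finset Pool.Agent.H160R2.HF Pool.Agent.H179R3.HF Pool.Agent.H23.PS

/-- Let `K` arise from `G` by a sequence of sums with the Petersen graph along cuts with at most five
edges. If `G` has six even subgraphs such that every edge lies in exactly four of them, then so has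
`K`; in particular, this holds if `G` is the union of two even subgraphs. -/
theorem result (V V' E E' : Type) [Fintype V] [Fintype E] [DecidableEq V] [DecidableEq E]
    [Fintype V'] [Fintype E'] [DecidableEq V'] [DecidableEq E'] (G : OrGraph V E)
    (K : OrGraph V' E') (h : PetersenSum5 G K)
    (hG : (∃ C : Fin 6 → Finset E, (∀ i v, Even (G.deg (C i) v)) ∧
        ∀ e, (univ.filter (fun i => e ∈ C i)).card = 4) ∨
      ∃ F₁ F₂ : Finset E, (∀ v, Even (G.deg F₁ v)) ∧ (∀ v, Even (G.deg F₂ v)) ∧
        F₁ ∪ F₂ = univ) :
    ∃ C : Fin 6 → Finset E', (∀ i v, Even (K.deg (C i) v)) ∧
      ∀ e, (univ.filter (fun i => e ∈ C i)).card = 4 := by
  refine sixCover_sum h ?_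
  rcases hG with hG | ⟨F₁, F₂, h₁, h₂, h₃⟩
  · exact hG
  · exact sixCover_of_union G F₁ F₂ h₁ h₂ h₃

end Pool.Agent.Results.MP_40718a_co.PetersenSums
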