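import Pool.Agent.R926.SC.PetFinMix

/-!
# Six even subgraphs: few odd pieces (MP_40718a_co)

Quadruple covers by six even subgraphs for all bridgeless graphs with at most sixteen vertices of odd
degree (with arbitrarily many vertices of even degree, arbitrary degrees and arbitrary small cuts).
More generally, let `G` be a bridgeless graph and `C_1, ..., C_m` sets of edges, such that each `C_i`
has at most four edges outside the union of the earlier ones and no bridge modulo this union
(circuits, or open or closed ears), or contains two disjoint sets each of which connects all that
`C_i` connects modulo this union (for example if `C_i` is the edge set of a 4-edge-connected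
subgraph).  Let `F` be their union.  If at most sixteen components of the graph `(V, F)` have an odd
number of boundary edges in `G`, then there are six even subgraphs such that each edge lies in
exactly four of them.

Proof.  By the starting library `TH362/TF` a graph without bridges with at most sixteen vertices of
odd degree has a nowhere-zero 4-flow or can be partitioned into ten classes which form a Petersen
graph; this is applied to `G / F`.  In the first case the flow is lifted to `G`, since circuits with
at most four edges can be contracted for 4-flows (the case of four edges is an exchange argument,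
`R926/SC/Kempe.lean`), and pieces with two disjoint connectors can be contracted as in Jaeger's proof
for 4-edge-connected graphs (`R926/SC/Mixed.lean`).  In the second case each class contains an odd number of the odd vertices of
`G / F`, hence at most seven, and the graph in which all vertices outside the class are identified
has a nowhere-zero 4-flow.  The flows are combined to a map from `G` to the Petersen graph, and the
six even subgraphs are the preimages of the complements of its perfect matchings.
-/

set_option autoImplicit false

open Finset

namespace Pool.Agent.Results.MP_40718a_co.SixteenOddPieces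

/-- The edges with exactly one end in `Y`. -/
def boundary {V E : Type} [DecidableEq V] [Fintype E] (s t : E → V) (Y : Finset V) : Finset E :=
  Finset.univ.filter (fun e => ¬ (s e ∈ Y ↔ t e ∈ Y))

/-- The component of `x` in the graph with the vertices `V` and the edges `F`. -/
noncomputable def component {V E : Type} [Fintype V] (s t : E → V) (F : Finset E) (x : V) :
    Finset V :=
  open Classical in Finset.univ.filter (fun y =>
    Relation.EqvGen (fun a b => ∃ e ∈ F, s e = a ∧ t e = b) x y)

/-- The union of the sets `C j` with `j < i`. -/
def earlier {E : Type} [DecidableEq E] {m : ℕ} (C : Fin m → Finset E) (i : Fin m) : Finset E :=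
  (Finset.univ.filter (fun j => j < i)).biUnion C

/-- `H` can be added to the chain after `F`: either (short) `H` has at most four edges outside `F`
and no bridge modulo `F`: no set `Y` of vertices without boundary edges in `F` has exactly one
boundary edge in `H`; or (doubly connected) `H` contains two disjoint sets each of which connects,
modulo `F`, whatever `H` connects: every set `Y` of vertices without boundary edges in `F` and with
a boundary edge in `H` has boundary edges in both sets. -/
def Step {V E : Type} [DecidableEq V] [Fintype E] [DecidableEq E] (s t : E → V)
    (F H : Finset E) : Prop :=
  ((H \ F).card ≤ 4 ∧ ∀ Y : Finset V, Disjoint (boundary s t Y) F →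
    (boundary s t Y ∩ H).card ≠ 1) ∨
  ∃ T₁ T₂ : Finset E, T₁ ⊆ H ∧ T₂ ⊆ H ∧ Disjoint T₁ T₂ ∧ ∀ Y : Finset V,
    Disjoint (boundary s t Y) F → ¬ Disjoint (boundary s t Y) H →
      ¬ Disjoint (boundary s t Y) T₁ ∧ ¬ Disjoint (boundary s t Y) T₂

/-- Six even subgraphs such that each edge lies in exactly four of them (`s e` and `t e` are the
ends of the edge `e`; loops count twice in the degrees). -/
def SixEvenSubgraphs {V E : Type} [DecidableEq V] [Fintype E] [DecidableEq E] (s t : E → V) :
    Prop :=
  ∃ D : Fin 6 → Finset E,
    (∀ i v, Even (((D i).filter (fun e => s e = v)).card +
      ((D i).filter (fun e => t e = v)).card)) ∧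
    ∀ e, (univ.filter (fun i => e ∈ D i)).card = 4

/-- The components for the empty set of edges are the vertices. -/
theorem component_empty {V E : Type} [Fintype V] [DecidableEq V] (s t : E → V) (x : V) :
    component s t ∅ x = {x} := by
  classical
  ext y
  unfold component
  rw [mem_filter, mem_singleton]
  constructor
  · rintro ⟨-, h⟩
    induction h with
    | rel a b hab => obtain ⟨e, he, -⟩ := hab; exact absurd he (notMem_empty _)
    | refl a => rfl
    | symm a b _ ih => exact ih.symm
    | trans a b c _ _ i1 i2 => exact i2.trans i1
  · rintro rfl
    exact ⟨mem_univ _, Relation.EqvGen.refl _⟩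

/-- (1) Let `G` be a finite graph, given by the two ends `s e` and `t e` of each edge `e` (loops and
parallel edges allowed), such that no set of vertices is left by exactly one edge, and
`C 0, ..., C (m - 1)` sets of edges such that each `C i` can be added after the union of the earlier
ones (`Step`: at most four new edges and no bridge, or two disjoint connectors). If at most sixteen components of the graph with the vertices of `G`, whose edges are
the elements of the sets `C i`, have an odd number of boundary edges, then there are six even
subgraphs such that each edge lies in exactly four of them.

(2) In particular there are such subgraphs for all bridgeless graphs with at most sixteen vertices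
of odd degree. -/
theorem result :
    (∀ (V E : Type) [Fintype V] [DecidableEq V] [Fintype E] [DecidableEq E] (s t : E → V),
      (∀ Y : Finset V, (boundary s t Y).card ≠ 1) → ∀ (m : ℕ) (C : Fin m → Finset E),
      (∀ i, Step s t (earlier C i) (C i)) →
      ((Finset.univ.image (component s t (Finset.univ.biUnion C))).filter
        (fun X => Odd (boundary s t X).card)).card ≤ 16 → SixEvenSubgraphs s t) ∧
    (∀ (V E : Type) [Fintype V] [DecidableEq V] [Fintype E] [DecidableEq E] (s t : E → V),
      (∀ Y : Finset V, (boundary s t Y).card ≠ 1) →
      (Finset.univ.filter (fun v => Odd ((Finset.univ.filter (fun e => s e = v)).card +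
        (Finset.univ.filter (fun e => t e = v)).card))).card ≤ 16 → SixEvenSubgraphs s t) := by
  classical
  have main : ∀ (V E : Type) [Fintype V] [DecidableEq V] [Fintype E] [DecidableEq E]
      (s t : E → V),
      (∀ Y : Finset V, (boundary s t Y).card ≠ 1) → ∀ (m : ℕ) (C : Fin m → Finset E),
      (∀ i, Step s t (earlier C i) (C i)) →
      ((Finset.univ.image (component s t (Finset.univ.biUnion C))).filter
        (fun X => Odd (boundary s t X).card)).card ≤ 16 → SixEvenSubgraphs s t :=
    fun V E _ _ _ _ s t hb m C h1 h3 =>
      Pool.Agent.R926.SC.six_evenM s t hb m C (Pool.Agent.R926.SC.st_of s t m C h1) h3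
  refine ⟨fun V E _ _ _ _ s t hb m C h1 h3 => main V E s t hb m C h1 h3,
    fun V E _ _ _ _ s t hb ho => ?_⟩
  refine main V E s t hb 0 (fun i => i.elim0) (fun i => i.elim0) ?_
  have h0 : Finset.univ.biUnion (fun i : Fin 0 => (i.elim0 : Finset E)) = ∅ := by
    ext e
    rw [mem_biUnion]
    constructor
    · rintro ⟨i, -⟩
      exact i.elim0
    · intro h
      exact absurd h (notMem_empty _)
  rw [h0]
  have hdeg : ∀ v, (Finset.univ.filter (fun e => s e = v)).card +
      (Finset.univ.filter (fun e => t e = v)).card = (boundary s t {v}).card +
      2 * (Finset.univ.filter (fun e => s e = v ∧ t e = v)).card := by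
    intro v
    unfold boundary
    rw [card_filter, card_filter, card_filter, card_filter, mul_sum, ← sum_add_distrib,
      ← sum_add_distrib]
    refine sum_congr rfl fun e _ => ?_
    simp only [mem_singleton]
    by_cases h1 : s e = v <;> by_cases h2 : t e = v <;> simp [h1, h2]
  have hsub : (Finset.univ.image (component s t ∅)).filter (fun X => Odd (boundary s t X).card) ⊆
      (Finset.univ.filter (fun v => Odd ((Finset.univ.filter (fun e => s e = v)).card +
        (Finset.univ.filter (fun e => t e = v)).card))).image (fun v => {v}) := by
    intro X hX
    rw [mem_filter, mem_image] at hX
    obtain ⟨⟨v, -, hv⟩, hodd⟩ := hX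
    rw [component_empty] at hv
    subst hv
    rw [mem_image]
    refine ⟨v, ?_, rfl⟩
    rw [mem_filter, hdeg v]
    exact ⟨mem_univ _, hodd.add_even (even_two_mul _)⟩
  exact (card_le_card hsub).trans (card_image_le.trans ho)

end Pool.Agent.Results.MP_40718a_co.SixteenOddPieces
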